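import Pool.Agent.Lib_helper68.MC.Defs

/-! Project MC (MP_b08f5f_an), block WD: dictionary between `ρ` and `wd ρ`. -/

set_option autoImplicit false

namespace Pool.Agent.Lib_helper68.MC

open MeasureTheory Filter Topology Set
open scoped ComplexConjugate ENNReal NNReal
open Pool.Agent.Lib_helper25.PV (Conf vel Motion centre inertia NC VFlow)
open Pool.Agent.Lib_helper12.HE (ham rad nrm Gam sig shell turn one LimAvg)

noncomputable section

theorem WD_prob {ρ : ℂ → ℝ} (h : Dens ρ) : IsProbabilityMeasure (wd ρ) := by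
  constructor
  rw [wd, withDensity_apply _ MeasurableSet.univ, Measure.restrict_univ,
    ← ofReal_integral_eq_lintegral_ofReal h.int (Eventually.of_forall h.nonneg), h.one,
    ENNReal.ofReal_one]

theorem WD_integral_smul {E : Type*} [NormedAddCommGroup E] [NormedSpace ℝ E] {ρ : ℂ → ℝ}
    (h : Dens ρ) (f : ℂ → E) : ∫ x, f x ∂(wd ρ) = ∫ x, ρ x • f x := by
  rw [wd, integral_withDensity_eq_integral_toReal_smul h.meas.ennreal_ofReal
    (Eventually.of_forall fun _ => ENNReal.ofReal_lt_top)]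
  refine integral_congr_ae (Eventually.of_forall fun x => ?_)
  simp only [ENNReal.toReal_ofReal (h.nonneg x)]

theorem WD_integral {ρ : ℂ → ℝ} (h : Dens ρ) (f : ℂ → ℝ) :
    ∫ x, f x ∂(wd ρ) = ∫ x, f x * ρ x := by
  rw [WD_integral_smul h f]
  refine integral_congr_ae (Eventually.of_forall fun x => ?_)
  simp only [smul_eq_mul, mul_comm]

theorem WD_mean {ρ : ℂ → ℝ} (h : Dens ρ) : ∫ x, x ∂(wd ρ) = mean ρ := by
  rw [WD_integral_smul h fun x => x, mean]
  refine integral_congr_ae (Eventually.of_forall fun x => ?_)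
  simp only [Complex.real_smul]

theorem WD_mo {ρ : ℂ → ℝ} (h : Dens ρ) (hI : ∫⁻ x, ‖x‖ₑ ^ 2 ∂(wd ρ) ≤ 1) : mo ρ ≤ 1 := by
  have h1 : ∫⁻ x, ‖x‖ₑ ^ 2 ∂(wd ρ) = ENNReal.ofReal (mo ρ) := by
    rw [wd, lintegral_withDensity_eq_lintegral_mul _ h.meas.ennreal_ofReal
      (measurable_enorm.pow_const 2), mo, ofReal_integral_eq_lintegral_ofReal h.mom
        (Eventually.of_forall fun x => mul_nonneg (sq_nonneg _) (h.nonneg x))]
    refine lintegral_congr fun x => ?_
    simp only [Pi.mul_apply]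
    rw [ENNReal.ofReal_mul (sq_nonneg _), ENNReal.ofReal_pow (norm_nonneg _), ofReal_norm, mul_comm]
  rw [h1] at hI
  exact ENNReal.ofReal_le_one.mp hI

/-- rotations preserve the Lebesgue measure of the plane -/
theorem WD_rotMP (a : ℂ) (ha : ‖a‖ = 1) : MeasurePreserving (fun x : ℂ => a * x) volume volume := by
  have h := (rotation ⟨a, by simp [Submonoid.unitSphere, ha]⟩).measurePreserving
  exact h

theorem WD_rotE (a : ℂ) (ha : ‖a‖ = 1) : MeasurableEmbedding (fun x : ℂ => a * x) := by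
  have h := (rotation ⟨a, by simp [Submonoid.unitSphere, ha]⟩).toHomeomorph.measurableEmbedding
  exact h

/-- a density with a non radial measure is not radial -/
theorem WD_rot {ρ : ℂ → ℝ} (h : Dens ρ) {f : ℂ → ℝ} (hf : Continuous f)
    (hfb : ∃ C, ∀ x, |f x| ≤ C) {θ : ℝ}
    (hne : ∫ x, f (Complex.exp (θ * Complex.I) * x) ∂(wd ρ) ≠ ∫ x, f x ∂(wd ρ)) :
    ∃ α : ℂ, ‖α‖ = 1 ∧ ¬ (fun x => ρ (α * x)) =ᵐ[volume] ρ := by
  have h1 : ‖Complex.exp (θ * Complex.I)‖ = 1 := Complex.norm_exp_ofReal_mul_I θ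
  have h2 : ‖(Complex.exp (θ * Complex.I))⁻¹‖ = 1 := by rw [norm_inv, h1, inv_one]
  refine ⟨(Complex.exp (θ * Complex.I))⁻¹, h2, fun hr => hne ?_⟩
  rw [WD_integral h, WD_integral h]
  have h3 := (WD_rotMP _ h1).integral_comp (WD_rotE _ h1)
    (fun y => f y * ρ ((Complex.exp (θ * Complex.I))⁻¹ * y))
  have h4 : ∀ x : ℂ, (Complex.exp (θ * Complex.I))⁻¹ * (Complex.exp (θ * Complex.I) * x) = x := by
    intro x
    rw [← mul_assoc, inv_mul_cancel₀ (Complex.exp_ne_zero _), one_mul]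
  simp only [h4] at h3
  rw [h3]
  refine integral_congr_ae ?_
  filter_upwards [hr] with x hx
  rw [hx]

end

end Pool.Agent.Lib_helper68.MC
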