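import Mathlib

/-!
# Product densities (block L1 of Microcanonical, MP_b08f5f_an)
-/

open MeasureTheory ENNReal

namespace Pool.Agent.Lib_helper58.MC

/-- Tonelli for products of functions of one variable each. -/
theorem lintegral_pi_prod {E : Type*} [MeasurableSpace E] {n : ℕ} (μ : Fin n → Measure E)
    [∀ i, SigmaFinite (μ i)] (f : Fin n → E → ℝ≥0∞) (hf : ∀ i, Measurable (f i)) :
    ∫⁻ z : Fin n → E, ∏ i, f i (z i) ∂(Measure.pi μ) = ∏ i, ∫⁻ x, f i x ∂(μ i) := by
  induction n with
  | zero => simp
  | succ n ih =>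
    calc ∫⁻ z : Fin (n + 1) → E, ∏ i, f i (z i) ∂(Measure.pi μ)
        = ∫⁻ x : E × (Fin n → E), f 0 x.1 * ∏ i : Fin n, f i.succ (x.2 i)
            ∂((μ 0).prod (Measure.pi fun i => μ i.succ)) := by
          rw [← ((measurePreserving_piFinSuccAbove μ 0).symm).lintegral_comp_emb
            (MeasurableEquiv.measurableEmbedding _)]
          refine lintegral_congr fun x => ?_
          simp [MeasurableEquiv.piFinSuccAbove_symm_apply, Fin.insertNthEquiv,
            Fin.prod_univ_succ]
      _ = (∫⁻ x, f 0 x ∂μ 0) * ∏ i : Fin n, ∫⁻ x, f i.succ x ∂(μ i.succ) := by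
          rw [← ih (fun i => μ i.succ) (fun i => f i.succ) (fun i => hf i.succ)]
          exact lintegral_prod_mul (hf 0).aemeasurable
            (Finset.measurable_prod _ fun (i : Fin n) _ =>
              (hf i.succ).comp (measurable_pi_apply i)).aemeasurable
      _ = ∏ i, ∫⁻ x, f i x ∂(μ i) := by rw [Fin.prod_univ_succ]

/-- The product of measures with densities has the product density. -/
theorem pi_withDensity {E : Type*} [MeasurableSpace E] {n : ℕ} (μ : Measure E) [SigmaFinite μ]
    (f : E → ℝ≥0∞) (hf : Measurable f) [SigmaFinite (μ.withDensity f)] :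
    Measure.pi (fun _ : Fin n => μ.withDensity f)
      = (Measure.pi fun _ : Fin n => μ).withDensity (fun z => ∏ i, f (z i)) := by
  refine Measure.pi_eq fun s hs => ?_
  rw [withDensity_apply _ (MeasurableSet.univ_pi hs), ← lintegral_indicator (MeasurableSet.univ_pi hs)]
  have h : ∀ z : Fin n → E, (Set.univ.pi s).indicator (fun z => ∏ i, f (z i)) z
      = ∏ i, (s i).indicator f (z i) := by
    intro z
    by_cases hz : z ∈ Set.univ.pi s
    · rw [Set.indicator_of_mem hz]
      exact Finset.prod_congr rfl fun i _ => (Set.indicator_of_mem (hz i (Set.mem_univ i)) f).symm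
    · rw [Set.indicator_of_notMem hz]
      have : ∃ i, z i ∉ s i := by
        by_contra hcon
        push Not at hcon
        exact hz fun i _ => hcon i
      obtain ⟨i, hi⟩ := this
      exact (Finset.prod_eq_zero (Finset.mem_univ i) (Set.indicator_of_notMem hi f)).symm
  simp_rw [h]
  rw [lintegral_pi_prod (fun _ => μ) (fun i => (s i).indicator f) fun i => hf.indicator (hs i)]
  refine Finset.prod_congr rfl fun i _ => ?_
  rw [lintegral_indicator (hs i), withDensity_apply _ (hs i)]

/-- If the product density is at most `M` on `G`, then the product measure of `G` is at most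
`M` times the reference measure of `G`. -/
theorem pi_le_of_density_le {E : Type*} [MeasurableSpace E] {n : ℕ} (μ : Measure E) [SigmaFinite μ]
    (f : E → ℝ≥0∞) (hf : Measurable f) [SigmaFinite (μ.withDensity f)]
    (M : ℝ≥0∞) (G : Set (Fin n → E)) (hG : MeasurableSet G)
    (hM : ∀ z ∈ G, ∏ i, f (z i) ≤ M) :
    Measure.pi (fun _ : Fin n => μ.withDensity f) G ≤ M * (Measure.pi fun _ : Fin n => μ) G := by
  rw [pi_withDensity μ f hf, withDensity_apply _ hG]
  calc ∫⁻ z in G, ∏ i, f (z i) ∂(Measure.pi fun _ : Fin n => μ)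
      ≤ ∫⁻ z in G, M ∂(Measure.pi fun _ : Fin n => μ) :=
        setLIntegral_mono measurable_const hM
    _ = M * (Measure.pi fun _ : Fin n => μ) G := by
        rw [setLIntegral_const]

end Pool.Agent.Lib_helper58.MC
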