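import Mathlib

/-!
# Chebyshev for a bounded two-point kernel (block L1 of Microcanonical, MP_b08f5f_an)
-/

open MeasureTheory ProbabilityTheory

namespace Pool.Agent.Lib_helper58.MC

variable {X : Type*} [MeasurableSpace X]

section pair

variable {N : ℕ} (ν : Measure X) [IsProbabilityMeasure ν]

/-- The coordinates are independent. -/
theorem coord_indep : iIndepFun (fun (i : Fin N) (z : Fin N → X) => z i)
    (Measure.pi fun _ : Fin N => ν) :=
  iIndepFun_pi (X := fun _ => id) fun _ => aemeasurable_id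

/-- The law of two different coordinates. -/
theorem map_pair {i j : Fin N} (hij : i ≠ j) :
    (Measure.pi fun _ : Fin N => ν).map (fun z : Fin N → X => (z i, z j)) = ν.prod ν := by
  have h := (coord_indep (N := N) ν).indepFun hij
  rw [h.map_prod_eq_prod_map_map (measurable_pi_apply i).aemeasurable
    (measurable_pi_apply j).aemeasurable]
  rw [(measurePreserving_eval (fun _ : Fin N => ν) i).map_eq,
    (measurePreserving_eval (fun _ : Fin N => ν) j).map_eq]

theorem integral_pair (k : X × X → ℝ) (hk : Measurable k) {i j : Fin N} (hij : i ≠ j) :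
    ∫ z : Fin N → X, k (z i, z j) ∂(Measure.pi fun _ : Fin N => ν) = ∫ p, k p ∂(ν.prod ν) := by
  rw [← map_pair ν hij, integral_map]
  · exact ((measurable_pi_apply i).prodMk (measurable_pi_apply j)).aemeasurable
  · exact hk.aestronglyMeasurable

theorem integral_pair_mul_zero (k : X × X → ℝ) (hk : Measurable k)
    (h0 : ∫ p, k p ∂(ν.prod ν) = 0) {i j l m : Fin N} (hij : i ≠ j)
    (hil : i ≠ l) (him : i ≠ m) (hjl : j ≠ l) (hjm : j ≠ m) :
    ∫ z : Fin N → X, k (z i, z j) * k (z l, z m) ∂(Measure.pi fun _ : Fin N => ν) = 0 := by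
  have h := (coord_indep (N := N) ν).indepFun_prodMk_prodMk (fun i => measurable_pi_apply i)
    i j l m hil him hjl hjm
  have h2 : IndepFun (fun z : Fin N → X => k (z i, z j)) (fun z : Fin N → X => k (z l, z m))
      (Measure.pi fun _ : Fin N => ν) := h.comp hk hk
  have h3 := h2.integral_fun_mul_eq_mul_integral
    (hk.comp ((measurable_pi_apply i).prodMk (measurable_pi_apply j))).aestronglyMeasurable
    (hk.comp ((measurable_pi_apply l).prodMk (measurable_pi_apply m))).aestronglyMeasurable
  rw [h3, integral_pair ν k hk hij, h0, zero_mul]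

end pair

/-- The two-point sum `∑_{i ≠ j} k(z_i, z_j)`. -/
noncomputable def twoSum {N : ℕ} (k : X × X → ℝ) (z : Fin N → X) : ℝ :=
  ∑ p ∈ (Finset.univ : Finset (Fin N × Fin N)).filter (fun p => p.1 ≠ p.2), k (z p.1, z p.2)

theorem measurable_twoSum {N : ℕ} (k : X × X → ℝ) (hk : Measurable k) :
    Measurable (twoSum (N := N) k) :=
  Finset.measurable_sum _ fun p _ =>
    hk.comp ((measurable_pi_apply p.1).prodMk (measurable_pi_apply p.2))

theorem twoSum_sub_const {N : ℕ} (k : X × X → ℝ) (c : ℝ) (z : Fin N → X) :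
    twoSum (fun p => k p - c) z = twoSum k z - N * (N - 1) * c := by
  unfold twoSum
  rw [Finset.sum_sub_distrib, Finset.sum_const, nsmul_eq_mul]
  congr 2
  have h1 : ((Finset.univ : Finset (Fin N × Fin N)).filter (fun p => p.1 ≠ p.2)).card
      = N * N - N := by
    have := Finset.card_filter_add_card_filter_not (s := (Finset.univ : Finset (Fin N × Fin N)))
      (fun p => p.1 = p.2)
    have h2 : ((Finset.univ : Finset (Fin N × Fin N)).filter (fun p => p.1 = p.2)).card = N := by
      have : (Finset.univ : Finset (Fin N × Fin N)).filter (fun p => p.1 = p.2)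
          = (Finset.univ : Finset (Fin N)).map ⟨fun i => (i, i), fun a b h => (Prod.ext_iff.mp h).1⟩ := by
        ext ⟨a, b⟩
        simp only [Finset.mem_filter, Finset.mem_univ, true_and, Finset.mem_map]
        constructor
        · intro h
          exact ⟨a, Prod.ext rfl h⟩
        · rintro ⟨c, hc⟩
          exact (Prod.ext_iff.mp hc).1.symm.trans (Prod.ext_iff.mp hc).2
      rw [this, Finset.card_map]; simp
    simp only [Finset.card_univ, Fintype.card_prod, Fintype.card_fin] at this
    have h3 : ((Finset.univ : Finset (Fin N × Fin N)).filter (fun p => p.1 ≠ p.2))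
      = ((Finset.univ : Finset (Fin N × Fin N)).filter (fun p => ¬ p.1 = p.2)) := rfl
    rw [h3]
    omega
  rw [h1]
  have : N ≤ N * N := Nat.le_mul_self N
  push_cast [Nat.cast_sub this]
  ring

open Classical in
/-- Second moment of a centred bounded two-point sum. -/
theorem integral_twoSum_sq_le {N : ℕ} (ν : Measure X) [IsProbabilityMeasure ν]
    (k : X × X → ℝ) (hk : Measurable k) (B : ℝ) (hB : ∀ p, |k p| ≤ B)
    (h0 : ∫ p, k p ∂(ν.prod ν) = 0) :
    ∫ z : Fin N → X, (twoSum k z) ^ 2 ∂(Measure.pi fun _ : Fin N => ν) ≤ 4 * N ^ 3 * B ^ 2 := by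
  set P := (Finset.univ : Finset (Fin N × Fin N)).filter (fun p => p.1 ≠ p.2) with hP
  set μ : Measure (Fin N → X) := Measure.pi fun _ : Fin N => ν
  have hmeas : ∀ p q : Fin N × Fin N, Measurable
      (fun z : Fin N → X => k (z p.1, z p.2) * k (z q.1, z q.2)) := fun p q =>
    (hk.comp ((measurable_pi_apply p.1).prodMk (measurable_pi_apply p.2))).mul
      (hk.comp ((measurable_pi_apply q.1).prodMk (measurable_pi_apply q.2)))
  have hbd : ∀ (p q : Fin N × Fin N) (z : Fin N → X),
      |k (z p.1, z p.2) * k (z q.1, z q.2)| ≤ B ^ 2 := by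
    intro p q z
    rw [abs_mul, sq]
    exact mul_le_mul (hB _) (hB _) (abs_nonneg _) ((abs_nonneg _).trans (hB (z p.1, z p.2)))
  have hint : ∀ p q : Fin N × Fin N, Integrable
      (fun z : Fin N → X => k (z p.1, z p.2) * k (z q.1, z q.2)) μ := fun p q =>
    Integrable.of_bound (hmeas p q).aestronglyMeasurable (B ^ 2)
      (Filter.Eventually.of_forall fun z => by rw [Real.norm_eq_abs]; exact hbd p q z)
  have h1 : ∫ z : Fin N → X, (twoSum k z) ^ 2 ∂μ
      = ∑ p ∈ P, ∑ q ∈ P, ∫ z : Fin N → X, k (z p.1, z p.2) * k (z q.1, z q.2) ∂μ := by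
    have : ∀ z : Fin N → X, (twoSum k z) ^ 2
        = ∑ p ∈ P, ∑ q ∈ P, k (z p.1, z p.2) * k (z q.1, z q.2) := by
      intro z
      rw [sq, twoSum, Finset.sum_mul_sum]
    simp_rw [this]
    rw [integral_finsetSum _ fun p _ => integrable_finsetSum _ fun q _ => hint p q]
    refine Finset.sum_congr rfl fun p _ => ?_
    rw [integral_finsetSum _ fun q _ => hint p q]
  rw [h1]
  -- pairs that share an index
  let sh : Fin N × Fin N → Fin N × Fin N → Prop := fun p q =>
    p.1 = q.1 ∨ p.1 = q.2 ∨ p.2 = q.1 ∨ p.2 = q.2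
  have h2 : ∀ p ∈ P, ∀ q ∈ P, ∫ z : Fin N → X, k (z p.1, z p.2) * k (z q.1, z q.2) ∂μ
      ≤ if sh p q then B ^ 2 else 0 := by
    intro p hp q hq
    split_ifs with h
    · calc ∫ z : Fin N → X, k (z p.1, z p.2) * k (z q.1, z q.2) ∂μ
          ≤ ∫ _z : Fin N → X, B ^ 2 ∂μ :=
            integral_mono (hint p q) (integrable_const _) fun z => (le_abs_self _).trans (hbd p q z)
        _ = B ^ 2 := by simp [μ]
    · have hp' : p.1 ≠ p.2 := (Finset.mem_filter.mp hp).2
      simp only [sh, not_or] at h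
      exact (integral_pair_mul_zero ν k hk h0 hp' h.1 h.2.1 h.2.2.1 h.2.2.2).le
  have h3 : ∀ p : Fin N × Fin N, ∑ q ∈ P, (if sh p q then B ^ 2 else 0) ≤ 4 * N * B ^ 2 := by
    intro p
    rw [← Finset.sum_filter, Finset.sum_const, nsmul_eq_mul]
    refine mul_le_mul_of_nonneg_right ?_ (sq_nonneg B)
    have hsub : P.filter (fun q => sh p q) ⊆
        ((Finset.univ.image fun a : Fin N => (p.1, a)) ∪ (Finset.univ.image fun a : Fin N => (a, p.1)))
        ∪ ((Finset.univ.image fun a : Fin N => (p.2, a)) ∪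
          (Finset.univ.image fun a : Fin N => (a, p.2))) := by
      intro q hq
      have hq2 := (Finset.mem_filter.mp hq).2
      simp only [Finset.mem_union, Finset.mem_image, Finset.mem_univ, true_and]
      rcases hq2 with h | h | h | h
      · exact Or.inl (Or.inl ⟨q.2, by rw [h]⟩)
      · exact Or.inl (Or.inr ⟨q.1, by rw [h]⟩)
      · exact Or.inr (Or.inl ⟨q.2, by rw [h]⟩)
      · exact Or.inr (Or.inr ⟨q.1, by rw [h]⟩)
    have hcard : (P.filter (fun q => sh p q)).card ≤ 4 * N := by
      refine (Finset.card_le_card hsub).trans ?_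
      refine (Finset.card_union_le _ _).trans ?_
      have e : ∀ f : Fin N → Fin N × Fin N, (Finset.univ.image f).card ≤ N := fun f =>
        (Finset.card_image_le).trans (by simp)
      have e1 := Finset.card_union_le (Finset.univ.image fun a : Fin N => (p.1, a))
        (Finset.univ.image fun a : Fin N => (a, p.1))
      have e2 := Finset.card_union_le (Finset.univ.image fun a : Fin N => (p.2, a))
        (Finset.univ.image fun a : Fin N => (a, p.2))
      have a1 := e fun a : Fin N => (p.1, a)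
      have a2 := e fun a : Fin N => (a, p.1)
      have a3 := e fun a : Fin N => (p.2, a)
      have a4 := e fun a : Fin N => (a, p.2)
      omega
    exact_mod_cast hcard
  calc ∑ p ∈ P, ∑ q ∈ P, ∫ z : Fin N → X, k (z p.1, z p.2) * k (z q.1, z q.2) ∂μ
      ≤ ∑ p ∈ P, ∑ q ∈ P, (if sh p q then B ^ 2 else 0) :=
        Finset.sum_le_sum fun p hp => Finset.sum_le_sum fun q hq => h2 p hp q hq
    _ ≤ ∑ _p ∈ P, 4 * N * B ^ 2 := Finset.sum_le_sum fun p _ => h3 p
    _ = P.card * (4 * N * B ^ 2) := by rw [Finset.sum_const, nsmul_eq_mul]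
    _ ≤ (N * N : ℝ) * (4 * N * B ^ 2) := by
        refine mul_le_mul_of_nonneg_right ?_ (by positivity)
        have : P.card ≤ N * N := (Finset.card_filter_le _ _).trans (by simp)
        exact_mod_cast this
    _ = 4 * N ^ 3 * B ^ 2 := by ring

/-- Chebyshev for the two-point sum of a bounded kernel. -/
theorem cheb_two {N : ℕ} (hN : 0 < N) (ν : Measure X) [IsProbabilityMeasure ν]
    (k : X × X → ℝ) (hk : Measurable k) (B : ℝ) (hB : ∀ p, |k p| ≤ B) {t : ℝ} (ht : 0 < t) :
    (Measure.pi fun _ : Fin N => ν) {z : Fin N → X |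
      t ≤ |(twoSum k z - N * (N - 1) * ∫ p, k p ∂(ν.prod ν)) / N ^ 2|}
      ≤ ENNReal.ofReal (16 * B ^ 2 / (N * t ^ 2)) := by
  set c := ∫ p, k p ∂(ν.prod ν) with hc
  set μ : Measure (Fin N → X) := Measure.pi fun _ : Fin N => ν
  have hN' : (0 : ℝ) < N := by exact_mod_cast hN
  have hkint : Integrable k (ν.prod ν) :=
    Integrable.of_bound hk.aestronglyMeasurable B
      (Filter.Eventually.of_forall fun z => by rw [Real.norm_eq_abs]; exact hB z)
  have hcB : |c| ≤ B := by
    have h1 := norm_integral_le_of_norm_le_const (μ := ν.prod ν) (f := k) (C := B)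
      (Filter.Eventually.of_forall fun z => by rw [Real.norm_eq_abs]; exact hB z)
    simpa [hc] using h1
  have hk2 : Measurable fun p => k p - c := hk.sub_const c
  have hB2 : ∀ p, |k p - c| ≤ 2 * B := fun p => by
    have := abs_sub (k p) c
    have := hB p
    linarith
  have h0 : ∫ p, (k p - c) ∂(ν.prod ν) = 0 := by
    rw [integral_sub hkint (integrable_const c)]
    simp [hc]
  have hsq := integral_twoSum_sq_le (N := N) ν (fun p => k p - c) hk2 (2 * B) hB2 h0
  have hbound : ∀ z : Fin N → X, (twoSum (fun p => k p - c) z) ^ 2 ≤ (N ^ 2 * (2 * B)) ^ 2 := by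
    intro z
    have h1 : |twoSum (fun p => k p - c) z| ≤ N ^ 2 * (2 * B) := by
      unfold twoSum
      refine (Finset.abs_sum_le_sum_abs _ _).trans ?_
      refine (Finset.sum_le_sum fun p _ => hB2 (z p.1, z p.2)).trans ?_
      rw [Finset.sum_const, nsmul_eq_mul]
      refine mul_le_mul_of_nonneg_right ?_ (by have := (abs_nonneg _).trans hcB; linarith)
      have : ((Finset.univ : Finset (Fin N × Fin N)).filter (fun p => p.1 ≠ p.2)).card ≤ N * N :=
        (Finset.card_filter_le _ _).trans (by simp)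
      calc (((Finset.univ : Finset (Fin N × Fin N)).filter (fun p => p.1 ≠ p.2)).card : ℝ)
          ≤ ((N * N : ℕ) : ℝ) := by exact_mod_cast this
        _ = N ^ 2 := by push_cast; ring
    rw [← sq_abs]
    exact pow_le_pow_left₀ (abs_nonneg _) h1 2
  have hint : Integrable (fun z : Fin N → X => (twoSum (fun p => k p - c) z) ^ 2) μ :=
    Integrable.of_bound ((measurable_twoSum _ hk2).pow_const 2).aestronglyMeasurable
      ((N ^ 2 * (2 * B)) ^ 2)
      (Filter.Eventually.of_forall fun z => by
        rw [Real.norm_eq_abs, abs_of_nonneg (sq_nonneg _)]; exact hbound z)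
  have hmark := mul_meas_ge_le_integral_of_nonneg (μ := μ)
    (Filter.Eventually.of_forall fun z => sq_nonneg (twoSum (fun p => k p - c) z)) hint
    ((t * N ^ 2) ^ 2)
  have hpos : 0 < (t * N ^ 2) ^ 2 := by positivity
  have hreal : μ.real {z | (t * N ^ 2) ^ 2 ≤ (twoSum (fun p => k p - c) z) ^ 2}
      ≤ 16 * B ^ 2 / (N * t ^ 2) := by
    have : μ.real {z | (t * N ^ 2) ^ 2 ≤ (twoSum (fun p => k p - c) z) ^ 2}
        ≤ (4 * N ^ 3 * (2 * B) ^ 2) / (t * N ^ 2) ^ 2 := by
      rw [le_div_iff₀ hpos, mul_comm]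
      exact hmark.trans hsq
    refine this.trans (le_of_eq ?_)
    field_simp
    ring
  have hsub : {z : Fin N → X | t ≤ |(twoSum k z - N * (N - 1) * c) / N ^ 2|}
      ⊆ {z | (t * N ^ 2) ^ 2 ≤ (twoSum (fun p => k p - c) z) ^ 2} := by
    intro z hz
    simp only [Set.mem_ofPred_eq] at hz ⊢
    rw [twoSum_sub_const]
    rw [abs_div, le_div_iff₀ (by positivity), abs_of_nonneg (by positivity : (0 : ℝ) ≤ N ^ 2)] at hz
    rw [← sq_abs (twoSum k z - N * (N - 1) * c)]
    exact pow_le_pow_left₀ (by positivity) hz 2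
  calc μ {z : Fin N → X | t ≤ |(twoSum k z - N * (N - 1) * c) / N ^ 2|}
      ≤ μ {z | (t * N ^ 2) ^ 2 ≤ (twoSum (fun p => k p - c) z) ^ 2} := measure_mono hsub
    _ = ENNReal.ofReal (μ.real {z | (t * N ^ 2) ^ 2 ≤ (twoSum (fun p => k p - c) z) ^ 2}) := by
        rw [ofReal_measureReal]
    _ ≤ ENNReal.ofReal (16 * B ^ 2 / (N * t ^ 2)) := ENNReal.ofReal_le_ofReal hreal

end Pool.Agent.Lib_helper58.MC
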