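import Pool.Agent.Lib_helper68.MC.Defs
import Pool.Agent.Lib_helper58.MC.Ch2

/-! Project MC (MP_b08f5f_an), block LL: weak laws of large numbers, integrable kernels. -/

set_option autoImplicit false

namespace Pool.Agent.Lib_helper68.MC

open MeasureTheory Filter Topology Set
open scoped ComplexConjugate ENNReal NNReal
open Pool.Agent.Lib_helper58.MC (twoSum map_pair cheb_two)

noncomputable section

theorem LL_twoSum {N : ℕ} (k : ℂ × ℂ → ℝ) (z : Fin N → ℂ) :
    ∑ i, ∑ j ∈ Finset.univ.erase i, k (z i, z j) = twoSum k z := by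
  unfold twoSum
  rw [Finset.sum_filter, ← Finset.univ_product_univ, Finset.sum_product]
  refine Finset.sum_congr rfl fun i _ => ?_
  rw [← Finset.sum_filter]
  refine Finset.sum_congr ?_ fun _ _ => rfl
  ext j
  simp [ne_comm]

/-- the first moment of a two-point sum -/
theorem LL_markov {N : ℕ} (hN : 0 < N) (P : Measure ℂ) [IsProbabilityMeasure P] {g : ℂ × ℂ → ℝ}
    (hg : Integrable g (P.prod P)) {t : ℝ} (ht : 0 < t) :
    Measure.pi (fun _ : Fin N => P) {z | t ≤ |twoSum g z / (N : ℝ) ^ 2|} ≤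
      ENNReal.ofReal ((∫ p, |g p| ∂(P.prod P)) / t) := by
  set Q := (Finset.univ : Finset (Fin N × Fin N)).filter (fun p => p.1 ≠ p.2) with hQ
  have hN' : (0 : ℝ) < N := by exact_mod_cast hN
  have hm : ∀ p : Fin N × Fin N, Measurable fun z : Fin N → ℂ => (z p.1, z p.2) := fun p =>
    (measurable_pi_apply p.1).prodMk (measurable_pi_apply p.2)
  have hint : ∀ p ∈ Q, Integrable (fun z : Fin N → ℂ => |g (z p.1, z p.2)|)
      (Measure.pi fun _ : Fin N => P) := by
    intro p hp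
    have h1 : Integrable (fun q => |g q|)
        ((Measure.pi fun _ : Fin N => P).map fun z : Fin N → ℂ => (z p.1, z p.2)) := by
      rw [map_pair P (Finset.mem_filter.mp hp).2]
      exact hg.abs
    exact h1.comp_measurable (hm p)
  have hval : ∀ p ∈ Q, ∫ z : Fin N → ℂ, |g (z p.1, z p.2)| ∂(Measure.pi fun _ : Fin N => P)
      = ∫ q, |g q| ∂(P.prod P) := by
    intro p hp
    rw [← map_pair P (Finset.mem_filter.mp hp).2, integral_map (hm p).aemeasurable]
    rw [map_pair P (Finset.mem_filter.mp hp).2]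
    exact hg.abs.aestronglyMeasurable
  have hF : Integrable (fun z : Fin N → ℂ => (∑ p ∈ Q, |g (z p.1, z p.2)|) / (N : ℝ) ^ 2)
      (Measure.pi fun _ : Fin N => P) := (integrable_finsetSum _ hint).div_const _
  have h0 : 0 ≤ ∫ q, |g q| ∂(P.prod P) := integral_nonneg fun _ => abs_nonneg _
  have hle : ∫ z : Fin N → ℂ, (∑ p ∈ Q, |g (z p.1, z p.2)|) / (N : ℝ) ^ 2
      ∂(Measure.pi fun _ : Fin N => P) ≤ ∫ q, |g q| ∂(P.prod P) := by
    rw [integral_div, integral_finsetSum _ hint, Finset.sum_congr rfl hval, Finset.sum_const,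
      nsmul_eq_mul, div_le_iff₀ (by positivity), mul_comm]
    refine mul_le_mul_of_nonneg_left ?_ h0
    have : Q.card ≤ N * N := (Finset.card_filter_le _ _).trans (by simp)
    calc (Q.card : ℝ) ≤ ((N * N : ℕ) : ℝ) := by exact_mod_cast this
      _ = (N : ℝ) ^ 2 := by push_cast; ring
  have hmk := mul_meas_ge_le_integral_of_nonneg (μ := Measure.pi fun _ : Fin N => P)
    (Eventually.of_forall fun z : Fin N → ℂ =>
      div_nonneg (Finset.sum_nonneg fun p _ => abs_nonneg (g (z p.1, z p.2)))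
        (sq_nonneg (N : ℝ))) hF t
  have hsub : {z : Fin N → ℂ | t ≤ |twoSum g z / (N : ℝ) ^ 2|} ⊆
      {z | t ≤ (∑ p ∈ Q, |g (z p.1, z p.2)|) / (N : ℝ) ^ 2} := by
    intro z hz
    simp only [Set.mem_ofPred_eq] at hz ⊢
    refine le_trans hz ?_
    rw [abs_div, abs_of_nonneg (sq_nonneg (N : ℝ))]
    refine div_le_div_of_nonneg_right ?_ (sq_nonneg (N : ℝ))
    exact Finset.abs_sum_le_sum_abs _ _
  refine (measure_mono hsub).trans ?_
  rw [← ofReal_measureReal]
  refine ENNReal.ofReal_le_ofReal ?_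
  rw [le_div_iff₀ ht, mul_comm]
  exact hmk.trans hle

theorem LL_two (P : Measure ℂ) [IsProbabilityMeasure P] {k : ℂ × ℂ → ℝ}
    (hk : Integrable k (P.prod P)) {ε : ℝ} (hε : 0 < ε) :
    Tendsto (fun N : ℕ => Measure.pi (fun _ : Fin N => P)
      {z | ε ≤ |(∑ i, ∑ j ∈ Finset.univ.erase i, k (z i, z j)) / (N : ℝ) ^ 2 -
        ∫ p, k p ∂(P.prod P)|}) atTop (𝓝 0) := by
  rw [ENNReal.tendsto_atTop_zero]
  intro δ hδ
  obtain ⟨δ', hδ'0, hδ'⟩ : ∃ δ' : ℝ, 0 < δ' ∧ ENNReal.ofReal δ' ≤ δ := by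
    rcases eq_or_ne δ ⊤ with rfl | hne
    · exact ⟨1, one_pos, le_top⟩
    · exact ⟨δ.toReal, ENNReal.toReal_pos hδ.ne' hne, by rw [ENNReal.ofReal_toReal hne]⟩
  set κ : ℝ := min (ε / 6) (δ' * ε / 12) with hκ
  have hκ0 : 0 < κ := lt_min (by positivity) (by positivity)
  obtain ⟨k', hsup, hclose, hcont, hint'⟩ :=
    hk.exists_hasCompactSupport_integral_sub_le hκ0
  obtain ⟨B, hB⟩ := hcont.bounded_above_of_compact_support hsup
  have hB' : ∀ p, |k' p| ≤ B := fun p => by rw [← Real.norm_eq_abs]; exact hB p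
  set c := ∫ p, k p ∂(P.prod P) with hc
  set c' := ∫ p, k' p ∂(P.prod P) with hc'
  have hg : Integrable (fun p => k p - k' p) (P.prod P) := hk.sub hint'
  have hgκ : ∫ p, |k p - k' p| ∂(P.prod P) ≤ κ := by
    simpa [Real.norm_eq_abs] using hclose
  have hcc : |c - c'| ≤ κ := by
    rw [hc, hc', ← integral_sub hk hint']
    exact (abs_integral_le_integral_abs).trans hgκ
  have hlim : Tendsto (fun N : ℕ => 16 * B ^ 2 / ((N : ℝ) * (ε / 6) ^ 2)) atTop (𝓝 0) := by
    have : Tendsto (fun N : ℕ => (N : ℝ) * (ε / 6) ^ 2) atTop atTop :=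
      Tendsto.atTop_mul_const (by positivity) tendsto_natCast_atTop_atTop
    exact this.const_div_atTop _
  have hlim2 : Tendsto (fun N : ℕ => |c'| / (N : ℝ)) atTop (𝓝 0) :=
    tendsto_natCast_atTop_atTop.const_div_atTop _
  have e1 := hlim.eventually (gt_mem_nhds (show (0 : ℝ) < δ' / 2 by positivity))
  have e2 := hlim2.eventually (gt_mem_nhds (show (0 : ℝ) < ε / 6 by positivity))
  obtain ⟨N₀, hN₀⟩ := eventually_atTop.mp (e1.and e2)
  refine ⟨max N₀ 1, fun N hN => le_trans ?_ hδ'⟩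
  have hN1 : 0 < N := lt_of_lt_of_le one_pos ((le_max_right _ _).trans hN)
  obtain ⟨b1, b2⟩ := hN₀ N ((le_max_left _ _).trans hN)
  have hN' : (0 : ℝ) < N := by exact_mod_cast hN1
  have hsub : {z : Fin N → ℂ | ε ≤ |(∑ i, ∑ j ∈ Finset.univ.erase i, k (z i, z j)) / (N : ℝ) ^ 2 - c|}
      ⊆ {z | ε / 2 ≤ |twoSum (fun p => k p - k' p) z / (N : ℝ) ^ 2|} ∪
        {z | ε / 6 ≤ |(twoSum k' z - N * (N - 1) * c') / (N : ℝ) ^ 2|} := by
    intro z hz
    simp only [Set.mem_union, Set.mem_ofPred_eq] at hz ⊢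
    by_contra hcon
    rw [not_or, not_le, not_le] at hcon
    rw [LL_twoSum] at hz
    have hs : twoSum (fun p => k p - k' p) z = twoSum k z - twoSum k' z := by
      unfold twoSum
      rw [Finset.sum_sub_distrib]
    rw [hs] at hcon
    have h3 : twoSum k z / (N : ℝ) ^ 2 - c
        = (twoSum k z - twoSum k' z) / (N : ℝ) ^ 2
          + (twoSum k' z - N * (N - 1) * c') / (N : ℝ) ^ 2 - (c - c') - c' / N := by
      field_simp
      ring
    have h4 : |c' / N| < ε / 6 := by rw [abs_div, abs_of_pos hN']; exact b2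
    have h5 : |c - c'| ≤ ε / 6 := hcc.trans (min_le_left _ _)
    rw [h3] at hz
    have t1 := abs_sub ((twoSum k z - twoSum k' z) / (N : ℝ) ^ 2
          + (twoSum k' z - N * (N - 1) * c') / (N : ℝ) ^ 2 - (c - c')) (c' / N)
    have t2 := abs_sub ((twoSum k z - twoSum k' z) / (N : ℝ) ^ 2
          + (twoSum k' z - N * (N - 1) * c') / (N : ℝ) ^ 2) (c - c')
    have t3 := abs_add_le ((twoSum k z - twoSum k' z) / (N : ℝ) ^ 2)
      ((twoSum k' z - N * (N - 1) * c') / (N : ℝ) ^ 2)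
    linarith [hcon.1, hcon.2]
  refine (measure_mono hsub).trans ((measure_union_le _ _).trans ?_)
  have m1 := LL_markov hN1 P hg (t := ε / 2) (by positivity)
  have m2 := cheb_two hN1 P k' hcont.measurable B hB' (t := ε / 6) (by positivity)
  have m1' : Measure.pi (fun _ : Fin N => P)
      {z | ε / 2 ≤ |twoSum (fun p => k p - k' p) z / (N : ℝ) ^ 2|} ≤ ENNReal.ofReal (δ' / 2) := by
    refine m1.trans (ENNReal.ofReal_le_ofReal ?_)
    rw [div_le_iff₀ (by positivity)]
    have : κ ≤ δ' * ε / 12 := min_le_right _ _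
    have : 0 < δ' * ε := by positivity
    linarith
  have m2' := m2.trans (ENNReal.ofReal_le_ofReal b1.le)
  refine (add_le_add m1' m2').trans ?_
  rw [← ENNReal.ofReal_add (by positivity) (by positivity)]
  exact ENNReal.ofReal_le_ofReal (by linarith)

theorem LL_one (P : Measure ℂ) [IsProbabilityMeasure P] {f : ℂ → ℝ} (hf : Integrable f P)
    {ε : ℝ} (hε : 0 < ε) :
    Tendsto (fun N : ℕ => Measure.pi (fun _ : Fin N => P)
      {z | ε ≤ |(∑ i, f (z i)) / N - ∫ x, f x ∂P|}) atTop (𝓝 0) := by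
  have hk : Integrable (fun p : ℂ × ℂ => f p.1) (P.prod P) := hf.comp_fst P
  have hval : ∫ p : ℂ × ℂ, f p.1 ∂(P.prod P) = ∫ x, f x ∂P := by
    rw [integral_fun_fst]
    simp
  have h2 := LL_two P hk (ε := ε / 4) (by positivity)
  rw [hval] at h2
  set m := ∫ x, f x ∂P with hm
  have hlim2 : Tendsto (fun N : ℕ => |m| / ((N : ℝ) - 1)) atTop (𝓝 0) := by
    refine Tendsto.const_div_atTop ?_ _
    exact tendsto_atTop_add_const_right _ _ tendsto_natCast_atTop_atTop
  have e2 := hlim2.eventually (gt_mem_nhds (show (0 : ℝ) < ε / 4 by positivity))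
  refine tendsto_of_tendsto_of_tendsto_of_le_of_le' tendsto_const_nhds h2
    (Eventually.of_forall fun _ => zero_le) ?_
  filter_upwards [e2, eventually_ge_atTop 2] with N hN hN2
  refine measure_mono fun z hz => ?_
  simp only [Set.mem_ofPred_eq] at hz ⊢
  have hN2' : (2 : ℝ) ≤ N := by exact_mod_cast hN2
  have hN' : (0 : ℝ) < N := by linarith
  have hN1 : (0 : ℝ) < (N : ℝ) - 1 := by linarith
  have hsum : ∑ i : Fin N, ∑ _j ∈ Finset.univ.erase i, f (z i) = ((N : ℝ) - 1) * ∑ i, f (z i) := by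
    rw [Finset.mul_sum]
    refine Finset.sum_congr rfl fun i _ => ?_
    rw [Finset.sum_const, Finset.card_erase_of_mem (Finset.mem_univ i), Finset.card_univ,
      Fintype.card_fin, nsmul_eq_mul, Nat.cast_sub (by omega)]
    norm_num
  rw [hsum]
  by_contra hcon
  rw [not_le] at hcon
  have h3 : (∑ i, f (z i)) / N - m
      = (((N : ℝ) - 1) * (∑ i, f (z i)) / (N : ℝ) ^ 2 - m) * (N / ((N : ℝ) - 1))
        + m / ((N : ℝ) - 1) := by
    field_simp
    ring
  have h4 : |m / ((N : ℝ) - 1)| < ε / 4 := by rw [abs_div, abs_of_pos hN1]; exact hN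
  have h5 : (N : ℝ) / ((N : ℝ) - 1) ≤ 2 := by rw [div_le_iff₀ hN1]; linarith
  have h6 : 0 < (N : ℝ) / ((N : ℝ) - 1) := div_pos hN' hN1
  rw [h3] at hz
  have t3 := abs_add_le ((((N : ℝ) - 1) * (∑ i, f (z i)) / (N : ℝ) ^ 2 - m) * (N / ((N : ℝ) - 1)))
    (m / ((N : ℝ) - 1))
  rw [abs_mul, abs_of_pos h6] at t3
  have t4 : |((N : ℝ) - 1) * (∑ i, f (z i)) / (N : ℝ) ^ 2 - m| * (N / ((N : ℝ) - 1))
      ≤ ε / 4 * 2 := mul_le_mul hcon.le h5 h6.le (by positivity)
  linarith

end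

end Pool.Agent.Lib_helper68.MC
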